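import Pool.Agent.H17.LL.Pell

/-!
# The linear forms `p log ((p + 2) / p) - 2 log (a / b)`
-/

set_option autoImplicit false

open Real

namespace Pool.Agent.H17.LL

theorem form_eq (p m c d : ℕ) (hp : 0 < p) (hc : 0 < c) (hd : 0 < d)
    (h : (p + 2) ^ m * d ^ 2 = p ^ m * c ^ 2 + 2) :
    (m : ℝ) * log (((p : ℝ) + 2) / p) + 2 * log ((d : ℝ) / c) =
      log (1 + 2 / ((p : ℝ) ^ m * (c : ℝ) ^ 2)) := by
  have hp' : (0 : ℝ) < p := by exact_mod_cast hp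
  have hc' : (0 : ℝ) < c := by exact_mod_cast hc
  have hd' : (0 : ℝ) < d := by exact_mod_cast hd
  have h' : ((p : ℝ) + 2) ^ m * (d : ℝ) ^ 2 = (p : ℝ) ^ m * (c : ℝ) ^ 2 + 2 := by exact_mod_cast h
  have e1 : (m : ℝ) * log (((p : ℝ) + 2) / p) = log ((((p : ℝ) + 2) / p) ^ m) := by
    rw [log_pow]
  have e2 : (2 : ℝ) * log ((d : ℝ) / c) = log (((d : ℝ) / c) ^ 2) := by
    rw [log_pow]; norm_num
  rw [e1, e2, ← log_mul (by positivity) (by positivity)]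
  congr 1
  have h0 : (p : ℝ) ^ m * (c : ℝ) ^ 2 ≠ 0 := by positivity
  rw [div_pow, div_pow, div_mul_div_comm, h']
  field_simp

theorem form_bounds (p m c d : ℕ) (hp : 0 < p) (hc : 0 < c) (hd : 0 < d)
    (h : (p + 2) ^ m * d ^ 2 = p ^ m * c ^ 2 + 2) :
    0 < (m : ℝ) * log (((p : ℝ) + 2) / p) + 2 * log ((d : ℝ) / c) ∧
    (m : ℝ) * log (((p : ℝ) + 2) / p) + 2 * log ((d : ℝ) / c) ≤ 2 / ((p : ℝ) ^ m * (c : ℝ) ^ 2) := by
  rw [form_eq p m c d hp hc hd h]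
  have hp' : (0 : ℝ) < p := by exact_mod_cast hp
  have hc' : (0 : ℝ) < c := by exact_mod_cast hc
  have h0 : 0 < 2 / ((p : ℝ) ^ m * (c : ℝ) ^ 2) := by positivity
  constructor
  · exact log_pos (by linarith)
  · have := log_le_sub_one_of_pos (show 0 < 1 + 2 / ((p : ℝ) ^ m * (c : ℝ) ^ 2) by linarith)
    linarith

/-- `(p (p + 2)) ^ ((p - 1) / 2) ≤ 3 p ^ (p - 1)` -/
theorem pow_bound (p j : ℕ) (hp : 0 < p) (hj : 2 * j + 1 = p) :
    ((p : ℝ) * (p + 2)) ^ j ≤ 3 * (p : ℝ) ^ (2 * j) := by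
  have hp' : (0 : ℝ) < p := by exact_mod_cast hp
  have h1 : ((p : ℝ) * (p + 2)) ≤ ((p : ℝ) * (1 + 1 / p)) ^ 2 := by
    have : (p : ℝ) * (1 + 1 / p) = p + 1 := by field_simp
    rw [this]; nlinarith
  have h2 : (1 + 1 / (p : ℝ)) ^ (2 * j) ≤ 3 := by
    have h3 : 1 + 1 / (p : ℝ) ≤ exp (1 / p) := by
      have := add_one_le_exp (1 / (p : ℝ)); linarith
    calc (1 + 1 / (p : ℝ)) ^ (2 * j) ≤ (exp (1 / p)) ^ (2 * j) :=
          pow_le_pow_left₀ (by positivity) h3 _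
      _ = exp ((2 * j : ℕ) * (1 / (p : ℝ))) := by rw [← exp_nat_mul]
      _ ≤ exp 1 := by
          apply exp_le_exp.2
          rw [mul_one_div, div_le_one hp']
          exact_mod_cast (by omega : 2 * j ≤ p)
      _ ≤ 3 := by linarith [exp_one_lt_d9]
  calc ((p : ℝ) * (p + 2)) ^ j ≤ (((p : ℝ) * (1 + 1 / p)) ^ 2) ^ j :=
        pow_le_pow_left₀ (by positivity) h1 _
    _ = (1 + 1 / (p : ℝ)) ^ (2 * j) * (p : ℝ) ^ (2 * j) := by rw [← pow_mul, mul_pow]; ring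
    _ ≤ 3 * (p : ℝ) ^ (2 * j) := by gcongr

/-- `u / log u` is monotone -/
theorem div_log_mono (u v : ℝ) (hu : exp 1 ≤ u) (huv : u ≤ v) : u / log u ≤ v / log v := by
  have hv : exp 1 ≤ v := hu.trans huv
  have hu0 : 0 < u := (exp_pos 1).trans_le hu
  have hv0 : 0 < v := (exp_pos 1).trans_le hv
  have lu : 1 ≤ log u := by rw [le_log_iff_exp_le hu0]; exact hu
  have lv : 1 ≤ log v := by rw [le_log_iff_exp_le hv0]; exact hv
  have h := log_div_self_antitoneOn (a := u) (b := v) (by simpa using hu) (by simpa using hv) huv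
  simp only at h
  rw [div_le_div_iff₀ hv0 hu0] at h
  rw [div_le_div_iff₀ (by linarith) (by linarith)]
  linarith

/-- the main estimate -/
theorem est (p j c : ℕ) (hp : 9 ≤ p) (hj : 2 * j + 1 = p) (hc : 1 ≤ c)
    (hcs : c ^ 2 ≤ (2 * p + 3) ^ ((p * (p + 2)) ^ j)) (X : ℝ) (hX0 : 2 * p ≤ X)
    (hX : X ≤ 2 * p * ((p : ℝ) + 2) ^ 2 * (c : ℝ) ^ 2) :
    2 / ((p : ℝ) ^ p * (c : ℝ) ^ 2) ≤ 54 * p / X * (log (log X) / log X) := by
  have hp9 : (9 : ℝ) ≤ p := by exact_mod_cast hp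
  have hp' : (0 : ℝ) < p := by linarith
  have hc1 : (1 : ℝ) ≤ c := by exact_mod_cast hc
  have hc' : (0 : ℝ) < c := by linarith
  have hXpos : 0 < X := by linarith
  have hX18 : 18 ≤ X := by linarith
  have he3 : exp 1 < 2.7182818286 := exp_one_lt_d9
  -- log X ≥ e
  have hlogX : exp 1 ≤ log X := by
    rw [le_log_iff_exp_le hXpos]
    refine le_trans ?_ hX18
    have h1 : exp (exp 1) ≤ exp (2.75) := exp_le_exp.2 (by linarith)
    have h2 : exp (2.75 : ℝ) = (exp 1) ^ 2 * exp (0.75) := by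
      rw [← exp_nat_mul, ← exp_add]; norm_num
    have h3 : exp (0.75 : ℝ) ≤ 2.2 := by
      have h4 : (exp (0.75 : ℝ)) ^ 4 = (exp 1) ^ 3 := by
        rw [← exp_nat_mul, ← exp_nat_mul]; norm_num
      have h5 : (exp 1) ^ 3 ≤ (2.2 : ℝ) ^ 4 := by
        calc (exp 1) ^ 3 ≤ (2.7182818286 : ℝ) ^ 3 := pow_le_pow_left₀ (exp_pos 1).le he3.le 3
          _ ≤ _ := by norm_num
      by_contra h6
      push Not at h6
      have h7 : (2.2 : ℝ) ^ 4 < (exp (0.75 : ℝ)) ^ 4 := pow_lt_pow_left₀ h6 (by norm_num) (by norm_num)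
      linarith
    calc exp (exp 1) ≤ (exp 1) ^ 2 * exp (0.75) := h2 ▸ h1
      _ ≤ (2.7182818286 : ℝ) ^ 2 * 2.2 := by gcongr
      _ ≤ 18 := by norm_num
  have hlogX0 : 0 < log X := (exp_pos 1).trans_le hlogX
  have hllX : 1 ≤ log (log X) := by rw [le_log_iff_exp_le hlogX0]; exact hlogX
  -- upper bound for log X
  have hL : 0 < log (2 * (p : ℝ) + 3) := log_pos (by linarith)
  have hL2 : log (2 * (p : ℝ) + 3) ≤ 2 * log p := by
    have : log (2 * (p : ℝ) + 3) ≤ log ((p : ℝ) ^ 2) := log_le_log (by positivity) (by nlinarith)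
    rwa [log_pow] at this
  have hpp : (3 : ℝ) ≤ (p : ℝ) ^ (2 * j) := by
    calc (3 : ℝ) ≤ (p : ℝ) ^ 1 := by rw [pow_one]; linarith
      _ ≤ (p : ℝ) ^ (2 * j) := pow_le_pow_right₀ (by linarith) (by omega)
  have hT : log X ≤ 4 * (p : ℝ) ^ (2 * j) * log (2 * (p : ℝ) + 3) := by
    have h1 : log X ≤ log (2 * p * ((p : ℝ) + 2) ^ 2 * (c : ℝ) ^ 2) := log_le_log hXpos hX
    rw [log_mul (by positivity) (by positivity)] at h1
    have h2 : log (2 * p * ((p : ℝ) + 2) ^ 2) ≤ 3 * log (2 * (p : ℝ) + 3) := by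
      have : log (2 * p * ((p : ℝ) + 2) ^ 2) ≤ log ((2 * (p : ℝ) + 3) ^ 3) := by
        refine log_le_log (by positivity) ?_
        have e1 : ((p : ℝ) + 2) ^ 2 ≤ (2 * (p : ℝ) + 3) ^ 2 :=
          pow_le_pow_left₀ (by positivity) (by linarith) 2
        calc 2 * p * ((p : ℝ) + 2) ^ 2 ≤ (2 * (p : ℝ) + 3) * (2 * (p : ℝ) + 3) ^ 2 := by
              refine mul_le_mul (by linarith) e1 (by positivity) (by positivity)
          _ = _ := by ring
      rwa [log_pow] at this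
    have h3 : log ((c : ℝ) ^ 2) ≤ ((p : ℝ) * (p + 2)) ^ j * log (2 * (p : ℝ) + 3) := by
      have e1 : ((c : ℝ) ^ 2) ≤ (2 * (p : ℝ) + 3) ^ ((p * (p + 2)) ^ j) := by exact_mod_cast hcs
      have e2 := log_le_log (by positivity) e1
      rw [log_pow] at e2
      push_cast at e2
      rw [log_pow] at e2 ⊢
      push_cast at e2 ⊢
      exact e2
    have h4 := pow_bound p j (by omega) hj
    have h5 : ((p : ℝ) * (p + 2)) ^ j * log (2 * (p : ℝ) + 3) ≤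
        3 * (p : ℝ) ^ (2 * j) * log (2 * (p : ℝ) + 3) := mul_le_mul_of_nonneg_right h4 hL.le
    have h6 : 3 * log (2 * (p : ℝ) + 3) ≤ (p : ℝ) ^ (2 * j) * log (2 * (p : ℝ) + 3) :=
      mul_le_mul_of_nonneg_right hpp hL.le
    linarith
  have hmono := div_log_mono _ _ hlogX hT
  -- bound T / log T
  have hlp : 0 < log (p : ℝ) := log_pos (by linarith)
  have hlogT : (2 * j : ℝ) * log p ≤ log (4 * (p : ℝ) ^ (2 * j) * log (2 * (p : ℝ) + 3)) := by
    have h1 : (1 : ℝ) ≤ 4 * log (2 * (p : ℝ) + 3) := by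
      have : 1 ≤ log (2 * (p : ℝ) + 3) := by
        rw [le_log_iff_exp_le (by positivity)]; linarith
      linarith
    have h2 : (p : ℝ) ^ (2 * j) ≤ 4 * (p : ℝ) ^ (2 * j) * log (2 * (p : ℝ) + 3) := by
      have : 0 < (p : ℝ) ^ (2 * j) := by positivity
      nlinarith
    have h3 := log_le_log (by positivity) h2
    rw [log_pow] at h3
    push_cast at h3
    exact h3
  have hj4 : (4 : ℝ) ≤ j := by exact_mod_cast (by omega : 4 ≤ j)
  have hjp : (2 * (j : ℝ) + 1) = p := by exact_mod_cast hj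
  have hT2 : 4 * (p : ℝ) ^ (2 * j) * log (2 * (p : ℝ) + 3) /
      log (4 * (p : ℝ) ^ (2 * j) * log (2 * (p : ℝ) + 3)) ≤ 9 * (p : ℝ) ^ (2 * j) / p := by
    have hpos : 0 < (2 * j : ℝ) * log p := by positivity
    calc _ ≤ 4 * (p : ℝ) ^ (2 * j) * log (2 * (p : ℝ) + 3) / ((2 * j : ℝ) * log p) := by
          gcongr
      _ ≤ 4 * (p : ℝ) ^ (2 * j) * (2 * log p) / ((2 * j : ℝ) * log p) := by
          gcongr
      _ = 4 * (p : ℝ) ^ (2 * j) / j := by field_simp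
      _ ≤ 9 * (p : ℝ) ^ (2 * j) / p := by
          rw [div_le_div_iff₀ (by linarith) hp']
          have : 0 < (p : ℝ) ^ (2 * j) := by positivity
          nlinarith
  have hfin : log X / log (log X) ≤ 9 * (p : ℝ) ^ (2 * j) / p := hmono.trans hT2
  -- conclusion
  have hq : ((p : ℝ) + 2) ^ 2 ≤ 1.5 * (p : ℝ) ^ 2 := by nlinarith
  have hpe : (p : ℝ) ^ p = (p : ℝ) ^ (2 * j) * p := by
    conv_lhs => rw [← hj]
    rw [pow_succ, hj]
  have hY : X * (log X / log (log X)) ≤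
      (2 * p * ((p : ℝ) + 2) ^ 2 * (c : ℝ) ^ 2) * (9 * (p : ℝ) ^ (2 * j) / p) :=
    mul_le_mul hX hfin (by positivity) (by positivity)
  have hY2 : (2 * p * ((p : ℝ) + 2) ^ 2 * (c : ℝ) ^ 2) * (9 * (p : ℝ) ^ (2 * j) / p) ≤
      27 * p * ((p : ℝ) ^ p * (c : ℝ) ^ 2) := by
    rw [hpe]
    have e1 : (2 * p * ((p : ℝ) + 2) ^ 2 * (c : ℝ) ^ 2) * (9 * (p : ℝ) ^ (2 * j) / p) =
        18 * ((p : ℝ) + 2) ^ 2 * ((c : ℝ) ^ 2 * (p : ℝ) ^ (2 * j)) := by field_simp; ring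
    have e2 : 27 * p * ((p : ℝ) ^ (2 * j) * p * (c : ℝ) ^ 2) =
        27 * (p : ℝ) ^ 2 * ((c : ℝ) ^ 2 * (p : ℝ) ^ (2 * j)) := by ring
    rw [e1, e2]
    refine mul_le_mul_of_nonneg_right ?_ (by positivity)
    nlinarith
  have hD : 0 < X * (log X / log (log X)) := by positivity
  have e3 : 54 * p / X * (log (log X) / log X) = 54 * p / (X * (log X / log (log X))) := by
    field_simp
  rw [e3, div_le_div_iff₀ (by positivity) hD]
  linarith

end Pool.Agent.H17.LL
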