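import Mathlib

/-!
# Equations `(p + 2) ^ m b ^ 2 - p ^ m a ^ 2 = 2` with odd `p` and `m`

For `P = p a ^ 2`, `P + 2 = (p + 2) b ^ 2` the numbers `A_r`, `B_r` with
`B_r √(P + 2) + A_r √P = (√(P + 2) + √P) (P + 1 + √(P (P + 2))) ^ r` satisfy
`(P + 2) B_r ^ 2 - P A_r ^ 2 = 2`, `A_r ≡ 2 r + 1 (mod P)`, `B_r ≡ ± (2 r + 1) (mod P + 2)`.
With `2 r + 1 = p (p + 2)` one gets another factor `p` in `a A_r` and `p + 2` in `b B_r`.
-/

set_option autoImplicit false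

namespace Pool.Agent.H17.LL

/-- the pairs `(A_r, B_r)` -/
def AB (P : ℤ) : ℕ → ℤ × ℤ
  | 0 => (1, 1)
  | r + 1 => ((P + 1) * (AB P r).1 + (P + 2) * (AB P r).2, (P + 1) * (AB P r).2 + P * (AB P r).1)

theorem AB_norm (P : ℤ) (r : ℕ) : (P + 2) * (AB P r).2 ^ 2 - P * (AB P r).1 ^ 2 = 2 := by
  induction r with
  | zero => simp [AB]
  | succ r ih => simp only [AB]; linear_combination ih

theorem AB_modP (P : ℤ) (r : ℕ) : P ∣ (AB P r).2 - 1 ∧ P ∣ (AB P r).1 - (2 * r + 1) := by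
  induction r with
  | zero => simp [AB]
  | succ r ih =>
    obtain ⟨⟨x, hx⟩, ⟨y, hy⟩⟩ := ih
    have hx' : (AB P r).2 = 1 + P * x := by linarith
    have hy' : (AB P r).1 = 2 * r + 1 + P * y := by linarith
    constructor
    · refine ⟨1 + (P + 1) * x + (AB P r).1, ?_⟩
      simp only [AB]
      rw [hx']; ring
    · refine ⟨(AB P r).1 + y + 1 + 2 * x + P * x, ?_⟩
      simp only [AB]
      push_cast
      rw [hx']
      linear_combination hy'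

theorem AB_modQ (P : ℤ) (r : ℕ) :
    (P + 2) ∣ (AB P r).1 - (-1) ^ r ∧ (P + 2) ∣ (AB P r).2 - (-1) ^ r * (2 * r + 1) := by
  induction r with
  | zero => simp [AB]
  | succ r ih =>
    obtain ⟨⟨x, hx⟩, ⟨y, hy⟩⟩ := ih
    have hx' : (AB P r).1 = (-1) ^ r + (P + 2) * x := by linarith
    have hy' : (AB P r).2 = (-1) ^ r * (2 * r + 1) + (P + 2) * y := by linarith
    constructor
    · refine ⟨(AB P r).1 + (AB P r).2 - x, ?_⟩
      simp only [AB]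
      rw [pow_succ]
      linear_combination -hx'
    · refine ⟨(AB P r).1 + (AB P r).2 - 2 * x - y, ?_⟩
      simp only [AB]
      rw [pow_succ]
      push_cast
      linear_combination -hy' - 2 * hx'

theorem AB_pos (P : ℤ) (hP : 1 ≤ P) (r : ℕ) : 1 ≤ (AB P r).1 ∧ 1 ≤ (AB P r).2 := by
  induction r with
  | zero => simp [AB]
  | succ r ih =>
    obtain ⟨h1, h2⟩ := ih
    simp only [AB]
    constructor <;> nlinarith

theorem AB_le (P : ℤ) (hP : 1 ≤ P) (r : ℕ) :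
    (AB P r).1 ≤ (2 * P + 3) ^ r ∧ (AB P r).2 ≤ (2 * P + 3) ^ r := by
  induction r with
  | zero => simp [AB]
  | succ r ih =>
    obtain ⟨h1, h2⟩ := ih
    simp only [AB, pow_succ]
    have h3 : (0 : ℤ) ≤ (2 * P + 3) ^ r := by positivity
    constructor <;> nlinarith

/-- **Solutions of `(p + 2) b ^ 2 - p a ^ 2 = 2` with `p ^ j ∣ a` and `(p + 2) ^ j ∣ b`.** -/
theorem step (p : ℕ) (hp : Odd p) (j : ℕ) :
    ∃ a b : ℤ, 1 ≤ a ∧ 1 ≤ b ∧ ((p : ℤ) + 2) * b ^ 2 - p * a ^ 2 = 2 ∧ (p : ℤ) ^ j ∣ a ∧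
      ((p : ℤ) + 2) ^ j ∣ b ∧ (2 * (p : ℤ) + 3) * a ^ 2 ≤ (2 * (p : ℤ) + 3) ^ ((p * (p + 2)) ^ j) := by
  have hp1 : (1 : ℤ) ≤ p := by
    have : 0 < p := hp.pos
    exact_mod_cast this
  induction j with
  | zero =>
    refine ⟨1, 1, le_rfl, le_rfl, by ring, by simp, by simp, by simp⟩
  | succ j ih =>
    obtain ⟨a, b, ha, hb, hab, hpa, hqb, hs⟩ := ih
    have hodd : Odd (p * (p + 2)) := hp.mul (hp.add_even (by decide))
    obtain ⟨r, hr⟩ := hodd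
    have hrZ : (p : ℤ) * (p + 2) = 2 * r + 1 := by exact_mod_cast hr
    have hP1 : 1 ≤ (p : ℤ) * a ^ 2 := by nlinarith [mul_pos (by linarith : (0 : ℤ) < a) (by linarith : (0 : ℤ) < a)]
    have hPQ : (p : ℤ) * a ^ 2 + 2 = ((p : ℤ) + 2) * b ^ 2 := by linarith
    have h1 := AB_norm ((p : ℤ) * a ^ 2) r
    have h2 := (AB_modP ((p : ℤ) * a ^ 2) r).2
    have h3 := (AB_modQ ((p : ℤ) * a ^ 2) r).2
    have h4 := AB_pos ((p : ℤ) * a ^ 2) hP1 r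
    have h5 := (AB_le ((p : ℤ) * a ^ 2) hP1 r).1
    refine ⟨a * (AB ((p : ℤ) * a ^ 2) r).1, b * (AB ((p : ℤ) * a ^ 2) r).2, ?_, ?_, ?_, ?_, ?_, ?_⟩
    · nlinarith [h4.1]
    · nlinarith [h4.2]
    · rw [hPQ] at h1
      linear_combination h1
    · rw [pow_succ]
      refine mul_dvd_mul hpa ?_
      have h6 : (p : ℤ) ∣ (AB ((p : ℤ) * a ^ 2) r).1 - (2 * r + 1) := dvd_trans (Dvd.intro _ rfl) h2
      have h7 : (p : ℤ) ∣ 2 * (r : ℤ) + 1 := ⟨(p : ℤ) + 2, hrZ.symm⟩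
      have h8 := dvd_add h6 h7
      rwa [sub_add_cancel] at h8
    · rw [pow_succ]
      refine mul_dvd_mul hqb ?_
      have h6 : ((p : ℤ) + 2) ∣ (AB ((p : ℤ) * a ^ 2) r).2 - (-1) ^ r * (2 * r + 1) := by
        refine dvd_trans ?_ h3
        rw [hPQ]
        exact Dvd.intro _ rfl
      have h7 : ((p : ℤ) + 2) ∣ (-1) ^ r * (2 * (r : ℤ) + 1) := by
        refine Dvd.dvd.mul_left ?_ _
        exact ⟨(p : ℤ), by rw [← hrZ]; ring⟩
      have h8 := dvd_add h6 h7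
      rwa [sub_add_cancel] at h8
    · have hA0 : 0 ≤ (AB ((p : ℤ) * a ^ 2) r).1 := by linarith [h4.1]
      have e1 : (AB ((p : ℤ) * a ^ 2) r).1 ≤ ((2 * (p : ℤ) + 3) * a ^ 2) ^ r := by
        refine h5.trans (pow_le_pow_left₀ (by positivity) ?_ _)
        nlinarith
      have e2 : (AB ((p : ℤ) * a ^ 2) r).1 ^ 2 ≤ (((2 * (p : ℤ) + 3) * a ^ 2) ^ r) ^ 2 :=
        pow_le_pow_left₀ hA0 e1 2
      calc (2 * (p : ℤ) + 3) * (a * (AB ((p : ℤ) * a ^ 2) r).1) ^ 2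
          = ((2 * (p : ℤ) + 3) * a ^ 2) * (AB ((p : ℤ) * a ^ 2) r).1 ^ 2 := by ring
        _ ≤ ((2 * (p : ℤ) + 3) * a ^ 2) * (((2 * (p : ℤ) + 3) * a ^ 2) ^ r) ^ 2 := by
            refine mul_le_mul_of_nonneg_left e2 (by positivity)
        _ = ((2 * (p : ℤ) + 3) * a ^ 2) ^ (p * (p + 2)) := by rw [hr]; ring
        _ ≤ ((2 * (p : ℤ) + 3) ^ ((p * (p + 2)) ^ j)) ^ (p * (p + 2)) :=
            pow_le_pow_left₀ (by positivity) hs _
        _ = (2 * (p : ℤ) + 3) ^ ((p * (p + 2)) ^ (j + 1)) := by rw [← pow_mul, pow_succ]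

/-- **Solutions of `(p + 2) ^ m b ^ 2 - p ^ m a ^ 2 = 2`, `m = 2 j + 1`.** -/
theorem sol (p : ℕ) (hp : Odd p) (j : ℕ) :
    ∃ a b : ℕ, 1 ≤ b ∧ b ≤ a ∧ (p + 2) ^ (2 * j + 1) * b ^ 2 = p ^ (2 * j + 1) * a ^ 2 + 2 ∧
      a ^ 2 ≤ (2 * p + 3) ^ ((p * (p + 2)) ^ j) := by
  have hp0 : 0 < p := hp.pos
  obtain ⟨a, b, ha, hb, hab, ⟨a', ha'⟩, ⟨b', hb'⟩, hs⟩ := step p hp j
  have hpj : (0 : ℤ) < (p : ℤ) ^ j := by positivity
  have hqj : (0 : ℤ) < ((p : ℤ) + 2) ^ j := by positivity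
  have ha'0 : 0 < a' := by
    by_contra h
    push Not at h
    nlinarith
  have hb'0 : 0 < b' := by
    by_contra h
    push Not at h
    nlinarith
  obtain ⟨c, rfl⟩ : ∃ c : ℕ, a' = c := ⟨a'.toNat, (Int.toNat_of_nonneg ha'0.le).symm⟩
  obtain ⟨d, rfl⟩ : ∃ d : ℕ, b' = d := ⟨b'.toNat, (Int.toNat_of_nonneg hb'0.le).symm⟩
  have hc : 1 ≤ c := by exact_mod_cast ha'0
  have hd : 1 ≤ d := by exact_mod_cast hb'0
  have heq : (p + 2) ^ (2 * j + 1) * d ^ 2 = p ^ (2 * j + 1) * c ^ 2 + 2 := by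
    have : ((p : ℤ) + 2) ^ (2 * j + 1) * (d : ℤ) ^ 2 = (p : ℤ) ^ (2 * j + 1) * (c : ℤ) ^ 2 + 2 := by
      rw [ha', hb'] at hab
      have e1 : ((p : ℤ) + 2) ^ (2 * j + 1) = ((p : ℤ) + 2) * (((p : ℤ) + 2) ^ j) ^ 2 := by ring
      have e2 : (p : ℤ) ^ (2 * j + 1) = (p : ℤ) * ((p : ℤ) ^ j) ^ 2 := by ring
      rw [e1, e2]
      linear_combination hab
    exact_mod_cast this
  refine ⟨c, d, hd, ?_, heq, ?_⟩
  · by_contra h
    push Not at h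
    have h1 : c + 1 ≤ d := h
    have h2 : (c + 1) ^ 2 ≤ d ^ 2 := Nat.pow_le_pow_left h1 2
    have h3 : p ^ (2 * j + 1) ≤ (p + 2) ^ (2 * j + 1) := Nat.pow_le_pow_left (by omega) _
    have h4 : 1 ≤ p ^ (2 * j + 1) := Nat.one_le_pow _ _ hp0
    have h5 : p ^ (2 * j + 1) * (c + 1) ^ 2 ≤ (p + 2) ^ (2 * j + 1) * d ^ 2 := Nat.mul_le_mul h3 h2
    nlinarith
  · have h1 : (c : ℤ) ^ 2 ≤ (2 * (p : ℤ) + 3) ^ ((p * (p + 2)) ^ j) := by
      refine le_trans ?_ hs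
      rw [ha']
      have e1 : (1 : ℤ) ≤ (p : ℤ) ^ j := by linarith
      have e2 : (c : ℤ) ^ 2 ≤ ((p : ℤ) ^ j * c) ^ 2 := by
        refine pow_le_pow_left₀ (by positivity) ?_ 2
        nlinarith
      nlinarith [sq_nonneg ((p : ℤ) ^ j * c)]
    exact_mod_cast h1

end Pool.Agent.H17.LL
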